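import Pool.Agent.KS6_17.PG3.Pack

/-!
# The lines left over and an odd cycle
-/

namespace Pool.Agent.KS6_17.PG3

open Module QuadraticAlgebra

/-- two lines through a point such that a spread can only use these at that point -/
theorem two_lines {K V : Type*} [Field K] [AddCommGroup V] [Module K V]
    {F : Set (Submodule K V)} (hF : IsSpread K V F) {v : V} (hv : v ≠ 0) {m1 m2 : Submodule K V}
    (h1 : v ∈ m1) (h2 : v ∈ m2) (hne : m1 ≠ m2) (h : ∀ m ∈ F, v ∈ m → m = m1 ∨ m = m2) :
    m1 ∈ F ↔ m2 ∉ F := by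
  obtain ⟨m, ⟨hm, hvm⟩, huniq⟩ := hF.2 v hv
  constructor
  · intro h3 h4
    apply hne
    rw [huniq m1 ⟨h3, h1⟩, huniq m2 ⟨h4, h2⟩]
  · intro h3
    rcases h m hm hvm with rfl | rfl
    · exact hm
    · exact absurd hm h3

variable {K : Type*} [Field K] {a b : K} [hn : Fact (∀ r : K, r ^ 2 ≠ a + b * r)]

/-- the lines `C` and `C'` -/
def CC (α β : QuadraticAlgebra K a b) (s : K) (x : QuadraticAlgebra K a b) :
    Submodule K (QuadraticAlgebra K a b × QuadraticAlgebra K a b) :=
  opp (lm (s • α) (s • β)) (lm 1 0) x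

/-- the lines `A` -/
def AA (α β : QuadraticAlgebra K a b) (t s : K) :
    Submodule K (QuadraticAlgebra K a b × QuadraticAlgebra K a b) :=
  gr (lm (t • ω + s • (α * ω)) (s • (β * star ω)))

/-- all lines through a point off the vertical line -/
theorem line_cases (hs : Sep a b)
    {m : Submodule K (QuadraticAlgebra K a b × QuadraticAlgebra K a b)} (hm : finrank K m = 2)
    {p q : QuadraticAlgebra K a b} (hp : p ≠ 0) (hv : (p, q) ∈ m) :
    (∃ c d, m = gr (lm c d)) ∨ ∃ w, w ≠ 0 ∧ (0, w) ∈ m := by
  have hv0 : ((p, q) : QuadraticAlgebra K a b × QuadraticAlgebra K a b) ≠ 0 := by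
    intro h
    exact hp (congrArg Prod.fst h)
  obtain ⟨w, hw, hws⟩ : ∃ w ∈ m, w ∉ Submodule.span K {(p, q)} := by
    by_contra hcon
    push Not at hcon
    have h1 : m ≤ Submodule.span K {(p, q)} := fun w hw => hcon w hw
    have h3 := Submodule.finrank_mono h1
    rw [finrank_span_singleton hv0, hm] at h3
    omega
  obtain ⟨z, y⟩ := w
  by_cases hc : ∃ l : K, z = l • p
  · right
    obtain ⟨l, rfl⟩ := hc
    refine ⟨y - l • q, ?_, ?_⟩
    · intro h
      apply hws
      rw [Submodule.mem_span_singleton]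
      refine ⟨l, ?_⟩
      ext1
      · rfl
      · simp only [Prod.smul_mk]
        rw [sub_eq_zero] at h
        exact h.symm
    · have := m.sub_mem hw (m.smul_mem l hv)
      simpa using this
  · left
    push Not at hc
    obtain ⟨c, d, h1, h2⟩ := exists_lm hs hp hc q y
    refine ⟨c, d, ?_⟩
    have hle : Submodule.span K {(p, q), (z, y)} ≤ m := by
      rw [Submodule.span_le]
      rintro v (rfl | rfl)
      · exact hv
      · exact hw
    have hle2 : Submodule.span K {(p, q), (z, y)} ≤ gr (lm c d) := by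
      rw [Submodule.span_le]
      rintro v (rfl | rfl)
      · rw [SetLike.mem_coe, mem_gr]; exact h1.symm
      · rw [SetLike.mem_coe, mem_gr]; exact h2.symm
    have hli : LinearIndependent K ![(p, q), (z, y)] := by
      rw [LinearIndependent.pair_iff]
      intro s t hst
      have h3 : s • p + t • z = 0 := congrArg Prod.fst hst
      have ht : t = 0 := by
        by_contra ht
        apply hc (-(s / t))
        have h4 : t • z = t • (-(s / t) • p) := by
          rw [smul_smul, mul_neg, mul_div_cancel₀ _ ht, neg_smul]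
          exact eq_neg_of_add_eq_zero_right h3
        exact smul_right_injective _ ht h4
      subst ht
      rw [zero_smul, add_zero] at h3
      rcases smul_eq_zero.mp h3 with h4 | h4
      · exact ⟨h4, rfl⟩
      · exact absurd h4 hp
    have hfr : finrank K (Submodule.span K {(p, q), (z, y)}) = 2 := by
      have := finrank_span_eq_card hli
      rw [Matrix.range_cons_cons_empty] at this
      simpa using this
    rw [← Submodule.eq_of_le_of_finrank_eq hle (by rw [hfr, hm]),
      ← Submodule.eq_of_le_of_finrank_eq hle2 (by rw [hfr, finrank_gr, finrank_L])]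

omit hn in
theorem opp_eq_of_mem {m : Submodule K (QuadraticAlgebra K a b × QuadraticAlgebra K a b)}
    (hm : finrank K m = 2) {f g : QuadraticAlgebra K a b →ₗ[K] QuadraticAlgebra K a b}
    {x : QuadraticAlgebra K a b} (hx : x ≠ 0) (hg : g x ≠ 0)
    (h1 : (x, f x) ∈ m) (h2 : (0, g x) ∈ m) : m = opp f g x := by
  have : FiniteDimensional K m := FiniteDimensional.of_finrank_pos (by omega)
  symm
  apply Submodule.eq_of_le_of_finrank_eq
  · intro v hv
    rw [mem_opp] at hv
    obtain ⟨s, t, h3, h4⟩ := hv
    have h5 : v = s • (x, f x) + t • (0, g x) := by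
      ext1
      · rw [h3]; simp
      · rw [h4]; simp
    rw [h5]
    exact m.add_mem (m.smul_mem _ h1) (m.smul_mem _ h2)
  · rw [hm, finrank_opp hx hg]

/-- graph lines that are not in a member -/
theorem gr_cases {α β : QuadraticAlgebra K a b} (hβ : β ≠ 0) {c d : QuadraticAlgebra K a b}
    (h : ∀ i, i ≠ (some 0, 0) → gr (lm c d) ∉ Mem α β i) :
    (∃ t s, gr (lm c d) = AA α β t s) ∨
      ∃ t s : K, s ≠ 0 ∧ s ≠ 1 ∧ c = s • α + t • 1 ∧ d = s • β := by
  by_cases hd : d = 0
  · subst hd
    obtain ⟨j, l, hc⟩ := ee_surj none c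
    have hc' : c = l • ω + j • (1 : QuadraticAlgebra K a b) := by
      rw [hc, add_comm, uu_none_eq]
      congr 1
      ext <;> simp [ee]
    by_cases hj : j = 0
    · left
      refine ⟨l, 0, ?_⟩
      rw [AA, zero_smul, zero_smul, add_zero, hc', hj, zero_smul, add_zero]
    · exfalso
      apply h (none, 0) (by intro h; simpa using congrArg Prod.fst h)
      rw [hc']
      exact mem_gr_none l j hj
  · have hu0 : star (d / β) ≠ 0 := by
      simpa using ⟨hd, hβ⟩
    obtain ⟨o, ν, hν, h1⟩ := idx_surj hu0
    have hdν : d = ν • (β * star (uu a b o)) := by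
      have h6 := congrArg star h1
      rw [star_star, star_smul'] at h6
      rw [← mul_smul_comm, ← h6, mul_div_cancel₀ _ hβ]
    by_cases ho : o = some 0
    · subst ho
      rw [uu_some_zero, star_one, mul_one] at hdν
      by_cases hν1 : ν = 1
      · exfalso
        subst hν1
        apply h (some 0, 1) (by intro h; exact one_ne_zero (congrArg Prod.snd h))
        obtain ⟨j, l, hc⟩ := ee_surj (some 0) (c - (1 : K) • α)
        have := mem_gr_some (α := α) (β := β) (1 : K) l j (fun h => absurd rfl h)
        have hc2 : (1 : K) • α + l • (1 : QuadraticAlgebra K a b) + j • ω = c := by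
          have h7 : ee a b (some 0) j = j • (ω : QuadraticAlgebra K a b) := by
            ext <;> simp [ee]
          rw [uu_some_zero, h7] at hc
          rw [add_assoc, add_comm (l • _), ← hc]; abel
        rw [hc2, ← hdν] at this
        exact this
      · obtain ⟨j, l, hc⟩ := ee_surj (some 0) (c - ν • α)
        have hc2 : ν • α + l • (1 : QuadraticAlgebra K a b) + j • ω = c := by
          have h7 : ee a b (some 0) j = j • (ω : QuadraticAlgebra K a b) := by
            ext <;> simp [ee]
          rw [uu_some_zero, h7] at hc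
          rw [add_assoc, add_comm (l • _), ← hc]; abel
        by_cases hj : j = 0
        · right
          refine ⟨l, ν, hν, hν1, ?_, hdν⟩
          rw [← hc2, hj, zero_smul, add_zero]
        · exfalso
          apply h (some 0, ν) (by intro h; exact hν (congrArg Prod.snd h))
          have := mem_gr_some (α := α) (β := β) ν l j (fun _ => hj)
          rw [hc2, ← hdν] at this
          exact this
    · obtain ⟨j, l, hc⟩ := ee_surj o (c - ν • (α * uu a b o))
      have hc2 : c = ee a b o j + l • uu a b o + ν • (α * uu a b o) := by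
        rw [← hc]; abel
      by_cases hij : (o, j) = ((none, 0) : Option K × K)
      · left
        obtain ⟨rfl, rfl⟩ := Prod.mk.injEq .. ▸ hij
        refine ⟨l, ν, ?_⟩
        rw [AA, hc2, hdν, ee_zero, zero_add, uu_none_eq]
      · exfalso
        apply h (o, j) (by intro h; exact ho (congrArg Prod.fst h))
        have := mem_gr_of (α := α) (β := β) (i := (o, j)) ho hij l ν hν
        simp only at this
        rw [← hc2, ← hdν] at this
        exact this

/-- the other lines that are not in a member -/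
theorem opp_cases {α β : QuadraticAlgebra K a b} (hg : Good α β)
    {m : Submodule K (QuadraticAlgebra K a b × QuadraticAlgebra K a b)} (hm : finrank K m = 2)
    {p q w : QuadraticAlgebra K a b} (hp : p ≠ 0) (hv : (p, q) ∈ m) (hw : w ≠ 0)
    (hwm : (0, w) ∈ m) (h : ∀ i, i ≠ (some 0, 0) → m ∉ Mem α β i) :
    ∃ k s t : K, k ≠ 0 ∧ w = k • p ∧ (s = 0 ∨ s = 1) ∧ q = t • p + s • (α * p + β * star p) ∧
      m = CC α β s p := by
  obtain ⟨o, k, hk, h1⟩ := idx_surj (a := a) (b := b) (div_ne_zero hw hp)
  have hwk : w = k • (uu a b o * p) := by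
    rw [← smul_mul_assoc, ← h1, div_mul_cancel₀ _ hp]
  have hum : (0, uu a b o * p) ∈ m := by
    have := m.smul_mem k⁻¹ hwm
    rw [Prod.smul_mk, smul_zero, hwk, smul_smul, inv_mul_cancel₀ hk, one_smul] at this
    exact this
  have hgx : ∀ (u y : QuadraticAlgebra K a b), lm u 0 y = u * y := by
    intro o y
    rw [lm_apply, zero_mul, add_zero]
  by_cases ho : o = some 0
  · subst ho
    rw [uu_some_zero, one_mul] at hwk hum
    obtain ⟨⟨t, s⟩, hts, -⟩ := (ind_u α β 1 hg one_ne_zero).exUnique finrank_L hp q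
    simp only [lm_apply, one_mul, zero_mul, add_zero, mul_one, star_one] at hts
    have hpm : (p, s • (α * p + β * star p)) ∈ m := by
      have := m.sub_mem hv (m.smul_mem t hum)
      rw [hts, Prod.smul_mk, smul_zero, Prod.mk_sub_mk, sub_zero, add_sub_cancel_left] at this
      exact this
    have hmm : m = CC α β s p := by
      apply opp_eq_of_mem hm hp
      · rw [hgx, one_mul]; exact hp
      · rw [lm_apply, smul_mul_assoc, smul_mul_assoc, ← smul_add]; exact hpm
      · rw [hgx, one_mul]; exact hum
    refine ⟨k, s, t, hk, hwk, ?_, hts, hmm⟩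
    by_contra hs
    push Not at hs
    apply h (some 0, s) (by intro h; exact hs.1 (congrArg Prod.snd h))
    have := mem_opp_of (α := α) (β := β) (i := (some 0, s))
      (by intro h; exact hs.2 (congrArg Prod.snd h)) hp
    simp only [FF, if_true, uu_some_zero] at this
    rw [hmm]
    exact this
  · exfalso
    obtain ⟨j, l, hc⟩ := ee_surj o (q / p)
    apply h (o, j) (by intro h; exact ho (congrArg Prod.fst h))
    have := mem_opp_of (α := α) (β := β) (i := (o, j))
      (by intro h; exact ho (congrArg Prod.fst h)) hp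
    simp only [FF, ho, if_false] at this
    have hmm : m = opp (lm (ee a b o j) 0) (lm (uu a b o) 0) p := by
      apply opp_eq_of_mem hm hp
      · rw [hgx]; exact mul_ne_zero (uu_ne_zero _) hp
      · rw [hgx]
        have h2 := m.sub_mem hv (m.smul_mem l hum)
        have h3 : q = (ee a b o j + l • uu a b o) * p := by
          rw [← hc, div_mul_cancel₀ _ hp]
        rw [h3, Prod.smul_mk, smul_zero, Prod.mk_sub_mk, sub_zero, add_mul, smul_mul_assoc,
          add_sub_cancel_right] at h2
        exact h2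
      · rw [hgx]; exact hum
    rw [hmm]
    exact this

/-- Through a point off the vertical line there are only two lines that can be used. -/
theorem two_at {α β : QuadraticAlgebra K a b} (hs : Sep a b) (hg : Good α β) (hβ : β ≠ 0)
    {m : Submodule K (QuadraticAlgebra K a b × QuadraticAlgebra K a b)} (hm : finrank K m = 2)
    {p q : QuadraticAlgebra K a b} (hp : p ≠ 0) (hv : (p, q) ∈ m)
    (h : ∀ i, i ≠ (some 0, 0) → m ∉ Mem α β i) {s t t' s' : K} (hs01 : s = 0 ∨ s = 1)
    (hq : q = t • p + s • (α * p + β * star p))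
    (hq' : q = (t' • ω + s' • (α * ω)) * p + s' • (β * star ω) * star p) :
    m = AA α β t' s' ∨ m = CC α β s p := by
  have hpp : q = t • (1 * p) + s • (α * (1 * p) + β * star (1 * p)) := by rw [hq, one_mul]
  have hu1 := (ind_u α β 1 hg one_ne_zero).exUnique finrank_L hp q
  have hu2 := (ind_u α β ω hg omega_ne_zero).exUnique finrank_L hp q
  rcases line_cases hs hm hp hv with ⟨c, d, rfl⟩ | ⟨w, hw, hwm⟩
  · rcases gr_cases hβ h with ⟨t1, s1, h1⟩ | ⟨t1, s1, hs0, hs1, rfl, rfl⟩
    · left
      rw [h1]
      rw [h1, AA, mem_gr] at hv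
      simp only [lm_apply] at hv
      have e1 := hu2.unique (y₁ := (t1, s1)) (y₂ := (t', s')) (by
        simp only [lm_apply, zero_mul, add_zero]
        rw [hv, add_mul, smul_mul_assoc, smul_mul_assoc, smul_mul_assoc, smul_add]
        abel) (by
        simp only [lm_apply, zero_mul, add_zero]
        rw [hq', add_mul, smul_mul_assoc, smul_mul_assoc, smul_mul_assoc, smul_add]
        abel)
      simp only [Prod.mk.injEq] at e1
      rw [e1.1, e1.2]
    · exfalso
      rw [mem_gr] at hv
      simp only [lm_apply] at hv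
      have e1 := hu1.unique (y₁ := (t1, s1)) (y₂ := (t, s)) (by
        simp only [lm_apply, zero_mul, add_zero, one_mul, mul_one, star_one]
        rw [hv, add_mul, smul_mul_assoc, smul_mul_assoc, smul_mul_assoc, smul_add, one_mul]
        abel) (by
        simp only [lm_apply, zero_mul, add_zero, one_mul, mul_one, star_one]
        exact hq)
      simp only [Prod.mk.injEq] at e1
      rcases hs01 with h01 | h01
      · exact hs0 (by rw [e1.2, h01])
      · exact hs1 (by rw [e1.2, h01])
  · right
    obtain ⟨k, s1, t1, hk, -, -, hq1, hm1⟩ := opp_cases hg hm hp hv hw hwm h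
    have e1 := hu1.unique (y₁ := (t1, s1)) (y₂ := (t, s)) (by
      simp only [lm_apply, zero_mul, add_zero, one_mul, mul_one, star_one]
      exact hq1) (by
      simp only [lm_apply, zero_mul, add_zero, one_mul, mul_one, star_one]
      exact hq)
    simp only [Prod.mk.injEq] at e1
    rw [hm1, e1.2]

/-- the same on the vertical line -/
theorem two_at_vert {α β : QuadraticAlgebra K a b} (hg : Good α β)
    {m : Submodule K (QuadraticAlgebra K a b × QuadraticAlgebra K a b)} (hm : finrank K m = 2)
    {x : QuadraticAlgebra K a b} (hx : x ≠ 0) (hv : (0, x) ∈ m)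
    (h : ∀ i, i ≠ (some 0, 0) → m ∉ Mem α β i) :
    m = CC α β 0 x ∨ m = CC α β 1 x := by
  have : FiniteDimensional K m := FiniteDimensional.of_finrank_pos (by omega)
  obtain ⟨v, hvm, hv1⟩ : ∃ v ∈ m, v.1 ≠ 0 := by
    by_contra hcon
    push Not at hcon
    have h1 : m = vert K _ := by
      apply Submodule.eq_of_le_of_finrank_eq
      · intro v hv
        rw [mem_vert]
        exact hcon v hv
      · rw [hm, finrank_vert, finrank_L]
    apply h (some 0, 1) (by intro h; exact one_ne_zero (congrArg Prod.snd h))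
    rw [h1]
    exact mem_vert_of
  obtain ⟨p, q⟩ := v
  simp only at hv1
  obtain ⟨k, s, t, hk, hxp, hs, -, hm1⟩ := opp_cases hg hm hv1 hvm hx hv h
  have h2 : ∀ s' : K, CC α β s' x = CC α β s' p := by
    intro s'
    rw [hxp, CC, CC, opp_smul hk]
  rw [h2, h2]
  rcases hs with rfl | rfl
  · left; exact hm1
  · right; exact hm1

theorem no_spread {α β : QuadraticAlgebra K a b} (hs : Sep a b) (hg : Good α β) (hβ : β ≠ 0)
    {x : QuadraticAlgebra K a b} (hx : x ≠ 0) {t s τ τ' : K}
    (h1 : (t • ω + s • (α * ω)) * x + s • (β * star ω) * star x =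
      τ • x + (α * x + β * star x))
    (h2 : (t • ω + s • (α * ω)) + s • (β * star ω) = τ' • (1 : QuadraticAlgebra K a b))
    {F : Set (Submodule K (QuadraticAlgebra K a b × QuadraticAlgebra K a b))}
    (hF : IsSpread K (QuadraticAlgebra K a b × QuadraticAlgebra K a b) F)
    (hd : ∀ i, i ≠ (some 0, 0) → Disjoint F (Mem α β i)) : False := by
  have hFM : ∀ m ∈ F, ∀ i, i ≠ (some 0, 0) → m ∉ Mem α β i := by
    intro m hm i hi hmi
    exact Set.disjoint_left.mp (hd i hi) hm hmi
  have h10 : (1 : QuadraticAlgebra K a b) ≠ 0 := one_ne_zero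
  have hgx : ∀ (u y : QuadraticAlgebra K a b), lm u 0 y = u * y := by
    intro o y
    rw [lm_apply, zero_mul, add_zero]
  have hAC : ∀ (t s s' : K) (y : QuadraticAlgebra K a b), y ≠ 0 → AA α β t s ≠ CC α β s' y := by
    intro t s s' y hy
    exact gr_ne_opp (by rw [hgx, one_mul]; exact hy)
  -- the five equivalences
  have e1 : AA α β 0 0 ∈ F ↔ CC α β 0 x ∉ F := by
    refine two_lines hF (v := (x, 0)) (by simp [hx]) ?_ ?_ (hAC _ _ _ _ hx) ?_
    · rw [AA, mem_gr]; simp [lm_apply]
    · rw [CC, mem_opp]; exact ⟨1, 0, by simp, by simp [lm_apply]⟩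
    · intro m hm hv
      exact two_at hs hg hβ (hF.1 m hm) hx hv (hFM m hm) (s := 0) (t := 0) (Or.inl rfl)
        (by simp) (by simp)
  have e2 : CC α β 0 x ∈ F ↔ CC α β 1 x ∉ F := by
    refine two_lines hF (v := (0, x)) (by simp [hx]) ?_ ?_ ?_ ?_
    · rw [CC, mem_opp]; exact ⟨0, 1, by simp, by simp [lm_apply]⟩
    · rw [CC, mem_opp]; exact ⟨0, 1, by simp, by simp [lm_apply]⟩
    · intro h
      obtain ⟨k, l, hk, h3, h4⟩ := opp_eq hx hx (by rw [hgx, one_mul]; exact hx) h
      rw [hgx, one_mul, lm_apply, lm_apply, zero_smul, zero_smul, zero_mul, zero_mul, zero_add,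
        zero_add, one_smul, one_smul] at h4
      exact hg x hx l h4
    · intro m hm hv
      exact two_at_vert hg (hF.1 m hm) hx hv (hFM m hm)
  have e3 : AA α β t s ∈ F ↔ CC α β 1 x ∉ F := by
    refine two_lines hF (v := (x, τ • x + (α * x + β * star x))) (by simp [hx]) ?_ ?_
      (hAC _ _ _ _ hx) ?_
    · rw [AA, mem_gr]; simp only [lm_apply]; exact h1.symm
    · rw [CC, mem_opp]
      refine ⟨1, τ, by simp, ?_⟩
      simp only [lm_apply, one_smul, one_mul, zero_mul, add_zero]
      abel
    · intro m hm hv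
      exact two_at hs hg hβ (hF.1 m hm) hx hv (hFM m hm) (s := 1) (t := τ) (Or.inr rfl)
        (by rw [one_smul]) h1.symm
  have e4 : AA α β t s ∈ F ↔ CC α β 0 1 ∉ F := by
    refine two_lines hF (v := (1, τ' • 1)) (by simp) ?_ ?_ (hAC _ _ _ _ h10) ?_
    · rw [AA, mem_gr]; simp only [lm_apply, star_one, mul_one]; exact h2.symm
    · rw [CC, mem_opp]
      refine ⟨1, τ', by simp, ?_⟩
      simp [lm_apply]
    · intro m hm hv
      exact two_at hs hg hβ (hF.1 m hm) h10 hv (hFM m hm) (s := 0) (t := τ') (Or.inl rfl)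
        (by simp) (by rw [star_one, mul_one, mul_one]; exact h2.symm)
  have e5 : AA α β 0 0 ∈ F ↔ CC α β 0 1 ∉ F := by
    refine two_lines hF (v := (1, 0)) (by simp) ?_ ?_ (hAC _ _ _ _ h10) ?_
    · rw [AA, mem_gr]; simp [lm_apply]
    · rw [CC, mem_opp]; exact ⟨1, 0, by simp, by simp [lm_apply]⟩
    · intro m hm hv
      exact two_at hs hg hβ (hF.1 m hm) h10 hv (hFM m hm) (s := 0) (t := 0) (Or.inl rfl)
        (by simp) (by simp)
  tauto

/-- the choice of the points -/
theorem exists_cycle {α β : QuadraticAlgebra K a b} (hs : Sep a b) (hg : Good α β)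
    (hβ : β ≠ 0) :
    ∃ x : QuadraticAlgebra K a b, x ≠ 0 ∧ ∃ t s τ τ' : K,
      (t • ω + s • (α * ω)) * x + s • (β * star ω) * star x = τ • x + (α * x + β * star x) ∧
      (t • ω + s • (α * ω)) + s • (β * star ω) = τ' • (1 : QuadraticAlgebra K a b) := by
  -- elements of `K` inside `L`
  have him : ∀ z : QuadraticAlgebra K a b, z.im = 0 → z = z.re • (1 : QuadraticAlgebra K a b) := by
    intro z hz
    ext <;> simp [hz]
  obtain ⟨x, hx, hx2⟩ : ∃ x : QuadraticAlgebra K a b, x ≠ 0 ∧
      (β * star ω * (star x / x - 1)).im ≠ 0 := by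
    by_contra hcon
    push Not at hcon
    have hω := omega_ne_zero (a := a) (b := b)
    have hω1 : (ω + 1 : QuadraticAlgebra K a b) ≠ 0 := by
      intro h
      have := congrArg QuadraticAlgebra.im h
      simp at this
    set z := β * star ω * (star ω - ω) with hz
    have hz0 : z ≠ 0 := by
      refine mul_ne_zero (mul_ne_zero hβ (by simpa using hω)) (sub_ne_zero.mpr (star_omega_ne hs))
    have e1 : β * star ω * (star ω / ω - 1) = z / ω := by
      rw [hz]; field_simp
    have e2 : β * star ω * (star (ω + 1) / (ω + 1) - 1) = z / (ω + 1) := by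
      rw [hz, star_add, star_one]; field_simp; ring
    have h1 := him _ (hcon ω hω)
    have h2 := him _ (hcon (ω + 1) hω1)
    rw [e1] at h1
    rw [e2] at h2
    rw [div_eq_iff hω, smul_mul_assoc, one_mul] at h1
    rw [div_eq_iff hω1, smul_mul_assoc, one_mul] at h2
    set r := (z / ω).re
    set r' := (z / (ω + 1)).re
    rw [h1] at h2
    have h3 := congrArg QuadraticAlgebra.im h2
    have h4 := congrArg QuadraticAlgebra.re h2
    simp only [im_smul, re_smul, omega_im, omega_re, im_add, re_add, im_one, re_one, smul_eq_mul,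
      mul_one, mul_zero, add_zero, zero_add] at h3 h4
    rw [← h4, ] at h3
    rw [h3, zero_smul] at h1
    exact hz0 h1
  refine ⟨x, hx, ?_⟩
  set ζ := star x / x with hζ
  have hζx : ζ * x = star x := div_mul_cancel₀ _ hx
  obtain ⟨s, hsdef⟩ : ∃ s : K, s = (α + β * ζ).im / (β * star ω * (ζ - 1)).im := ⟨_, rfl⟩
  have hs1 : s * (β * star ω * (ζ - 1)).im = (α + β * ζ).im := by
    rw [hsdef, div_mul_cancel₀ _ hx2]
  obtain ⟨t, ht⟩ : ∃ t : K, t = -(s * (α * ω + β * star ω).im) := ⟨_, rfl⟩
  have h2 : ((t • ω + s • (α * ω)) + s • (β * star ω) : QuadraticAlgebra K a b).im = 0 := by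
    simp only [im_add, im_smul, smul_eq_mul, omega_im, mul_one] at ht ⊢
    rw [ht]; ring
  have h1 : ((t • ω + s • (α * ω)) + s • (β * star ω) * ζ - (α + β * ζ) :
      QuadraticAlgebra K a b).im = 0 := by
    have e1 : ((t • ω + s • (α * ω)) + s • (β * star ω) * ζ - (α + β * ζ) :
      QuadraticAlgebra K a b) = ((t • ω + s • (α * ω)) + s • (β * star ω)) +
        (s • (β * star ω * (ζ - 1)) - (α + β * ζ)) := by
      rw [smul_mul_assoc, mul_sub, mul_one, smul_sub]; abel
    rw [e1, im_add, h2, zero_add, im_sub, im_smul, smul_eq_mul, hs1, sub_self]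
  have e1 := him _ h1
  have e2 := him _ h2
  obtain ⟨τ, hτ⟩ : ∃ τ : K, (t • ω + s • (α * ω)) + s • (β * star ω) * ζ - (α + β * ζ) =
      τ • (1 : QuadraticAlgebra K a b) := ⟨_, e1⟩
  refine ⟨t, s, τ, _, ?_, e2⟩
  have e3 : τ • x = (τ • (1 : QuadraticAlgebra K a b)) * x := by rw [smul_mul_assoc, one_mul]
  rw [e3, ← hτ, ← hζx]
  ring

end Pool.Agent.KS6_17.PG3
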