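import Pool.Agent.KS6_17.PG3.Cyc

/-!
# Deficiency two for every finite field with at least three elements
-/

namespace Pool.Agent.KS6_17.PG3

open Module QuadraticAlgebra

theorem good_complete {K : Type*} [Field K] [Finite K] {a b : K}
    (hn : Fact (∀ r : K, r ^ 2 ≠ a + b * r)) {α β : QuadraticAlgebra K a b} (hs : Sep a b)
    (hg : Good α β) (hβ : β ≠ 0) :
    ∃ P, IsCompletePartialPacking K (Fin 4 → K) P 2 := by
  have hrank : finrank K (QuadraticAlgebra K a b × QuadraticAlgebra K a b) =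
      finrank K (Fin 4 → K) := by
    rw [Module.finrank_prod, finrank_L, Module.finrank_fin_fun]
  let e := LinearEquiv.ofFinrankEq (QuadraticAlgebra K a b × QuadraticAlgebra K a b) (Fin 4 → K) hrank
  obtain ⟨x, hx, t, s, τ, τ', h1, h2⟩ := exists_cycle hs hg hβ
  exact transport e (PP_isComplete hs hg hβ fun F hF hd => no_spread hs hg hβ hx h1 h2 hF hd)

theorem norm_smul' {K : Type*} [Field K] {a b : K} (r : K) (z : QuadraticAlgebra K a b) :
    norm (r • z) = r ^ 2 * norm z := by
  simp only [norm_def, re_smul, im_smul, smul_eq_mul]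
  ring

theorem exists_nonsquare_delta (K : Type*) [Field K] [Fintype K] (hodd : Odd (Fintype.card K)) :
    ∃ n : K, (∀ r : K, r ^ 2 ≠ n) ∧ ∃ a b : K, a ^ 2 - n * b ^ 2 = n := by
  classical
  have hchar : ringChar K ≠ 2 := by
    intro h
    have := FiniteField.even_card_of_char_two h
    rw [Nat.odd_iff] at hodd
    omega
  obtain ⟨n, hn⟩ := FiniteField.exists_nonsquare hchar
  have hn0 : n ≠ 0 := by
    rintro rfl
    exact hn ⟨0, by ring⟩
  refine ⟨n, fun r h => hn ⟨r, by rw [← h]; ring⟩, ?_⟩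
  have hd1 : (Polynomial.X ^ 2 - Polynomial.C n : Polynomial K).degree = 2 :=
    Polynomial.degree_X_pow_sub_C (by norm_num) n
  have hd2 : (Polynomial.C (-n) * Polynomial.X ^ 2 : Polynomial K).degree = 2 :=
    Polynomial.degree_C_mul_X_pow 2 (neg_ne_zero.mpr hn0)
  obtain ⟨a, b, hab⟩ := FiniteField.exists_root_sum_quadratic hd1 hd2 (by
    rw [Nat.odd_iff] at hodd; exact hodd)
  refine ⟨a, b, ?_⟩
  simp only [Polynomial.eval_sub, Polynomial.eval_pow, Polynomial.eval_X, Polynomial.eval_C,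
    Polynomial.eval_mul] at hab
  linear_combination hab

theorem two_ne_zero_of_odd (K : Type*) [Field K] [Fintype K] (hodd : Odd (Fintype.card K)) :
    (2 : K) ≠ 0 := by
  have hchar : ringChar K ≠ 2 := by
    intro h
    have := FiniteField.even_card_of_char_two h
    rw [Nat.odd_iff] at hodd
    omega
  exact Ring.two_ne_zero hchar

/-- odd `q` -/
theorem exists_odd (K : Type*) [Field K] [Fintype K] (hodd : Odd (Fintype.card K)) :
    ∃ P, IsCompletePartialPacking K (Fin 4 → K) P 2 := by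
  have h2 := two_ne_zero_of_odd K hodd
  obtain ⟨n, hn, x, y, hxy⟩ := exists_nonsquare_delta K hodd
  have hfact : Fact (∀ r : K, r ^ 2 ≠ n + 0 * r) := ⟨fun r => by simpa using hn r⟩
  have hn0 : n ≠ 0 := by
    intro h
    exact hn 0 (by rw [h]; ring)
  let δ : QuadraticAlgebra K n 0 := ⟨x, y⟩
  have hδ : QuadraticAlgebra.norm δ = n := by
    simp only [norm_def, δ]
    linear_combination hxy
  have hδ0 : δ ≠ 0 := by
    intro h
    rw [h, QuadraticAlgebra.norm_zero] at hδ
    exact hn0 hδ.symm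
  refine good_complete hfact (α := 0) (β := δ) (Or.inl h2) ?_ hδ0
  intro z hz t h
  rw [zero_mul, zero_add] at h
  have h1 := congrArg QuadraticAlgebra.norm h
  rw [map_mul, QuadraticAlgebra.norm_star, hδ, norm_smul'] at h1
  have hz0 : QuadraticAlgebra.norm z ≠ 0 := by
    rwa [Ne, norm_eq_zero_iff_eq_zero]
  exact hn t (mul_right_cancel₀ hz0 h1).symm

/-- even `q ≥ 4` -/
theorem exists_even (K : Type*) [Field K] [Fintype K] (h2 : (2 : K) = 0)
    (h3 : 3 ≤ Fintype.card K) :
    ∃ P, IsCompletePartialPacking K (Fin 4 → K) P 2 := by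
  classical
  obtain ⟨n, hn⟩ : ∃ n : K, ∀ r : K, r ^ 2 ≠ n + 1 * r := by
    by_contra hcon
    push Not at hcon
    have hsurj : Function.Surjective (fun r : K => r ^ 2 - r) := by
      intro n
      obtain ⟨r, hr⟩ := hcon n
      exact ⟨r, by simp only; rw [hr]; ring⟩
    have hinj := Finite.injective_iff_surjective.mpr hsurj
    have : (0 : K) = 1 := hinj (by simp)
    exact zero_ne_one this
  have hfact : Fact (∀ r : K, r ^ 2 ≠ n + 1 * r) := ⟨hn⟩
  obtain ⟨γ, hγ0, hγ1⟩ : ∃ γ : K, γ ≠ 0 ∧ γ ≠ 1 := by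
    by_contra hcon
    push Not at hcon
    have : (Finset.univ : Finset K) ⊆ {0, 1} := by
      intro z _
      by_cases hz : z = 0
      · simp [hz]
      · simp [hcon z hz]
    have h4 := Finset.card_le_card this
    rw [Finset.card_univ] at h4
    have h5 : ({0, 1} : Finset K).card ≤ 2 := Finset.card_le_two
    omega
  have hβ0 : γ ^ 2 + γ ≠ 0 := by
    intro h
    have h4 : γ * (γ - 1) = 0 := by linear_combination h - γ * h2
    rcases mul_eq_zero.mp h4 with h5 | h5
    · exact hγ0 h5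
    · exact hγ1 (sub_eq_zero.mp h5)
  let β : QuadraticAlgebra K n 1 := ⟨γ ^ 2 + γ, 0⟩
  have hβ : β ≠ 0 := by
    intro h
    exact hβ0 (congrArg QuadraticAlgebra.re h)
  refine good_complete hfact (α := ω) (β := β) (Or.inr one_ne_zero) ?_ hβ
  intro z hz t h
  have hz0 : QuadraticAlgebra.norm z ≠ 0 := by
    rwa [Ne, norm_eq_zero_iff_eq_zero]
  have h4 : β * star z = (t • (1 : QuadraticAlgebra K n 1) - ω) * z := by
    rw [sub_mul, smul_mul_assoc, one_mul, ← h]; ring
  have h5 := congrArg QuadraticAlgebra.norm h4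
  rw [map_mul, map_mul, QuadraticAlgebra.norm_star] at h5
  have h6 := mul_right_cancel₀ hz0 h5
  simp only [norm_def, β, re_sub, im_sub, re_smul, im_smul, re_one, im_one, omega_re, omega_im,
    smul_eq_mul] at h6
  apply hn (t + γ ^ 2)
  linear_combination -h6 + (γ ^ 4 + γ ^ 3 + t * γ ^ 2) * h2

end Pool.Agent.KS6_17.PG3
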