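import Pool.Agent.KS6_17.PG3.Hall

/-!
# Linear maps of a quadratic extension

`L = QuadraticAlgebra K a b` is a separable quadratic extension of `K`; every `K`-linear map of
`L` has the form `x ↦ c x + d x̄`.
-/

namespace Pool.Agent.KS6_17.PG3

open Module QuadraticAlgebra

section

variable {K : Type*} [Field K] {a b : K}

/-- conjugation as a `K`-linear map -/
def conjL (a b : K) : QuadraticAlgebra K a b →ₗ[K] QuadraticAlgebra K a b where
  toFun := star
  map_add' := star_add
  map_smul' := by
    intro r x
    ext
    · simp only [re_star, re_smul, im_smul, smul_eq_mul, RingHom.id_apply]; ring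
    · simp

/-- the map `x ↦ c x + d x̄` -/
def lm (c d : QuadraticAlgebra K a b) : QuadraticAlgebra K a b →ₗ[K] QuadraticAlgebra K a b :=
  LinearMap.mulLeft K c + (LinearMap.mulLeft K d).comp (conjL a b)

theorem lm_apply (c d x : QuadraticAlgebra K a b) : lm c d x = c * x + d * star x := rfl

theorem star_smul' (r : K) (x : QuadraticAlgebra K a b) : star (r • x) = r • star x :=
  (conjL a b).map_smul r x

theorem lm_add (c d c' d' : QuadraticAlgebra K a b) : lm c d + lm c' d' = lm (c + c') (d + d') := by
  apply LinearMap.ext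
  intro x
  rw [LinearMap.add_apply, lm_apply, lm_apply, lm_apply]
  ring

theorem lm_smul (r : K) (c d : QuadraticAlgebra K a b) : r • lm c d = lm (r • c) (r • d) := by
  apply LinearMap.ext
  intro x
  rw [LinearMap.smul_apply, lm_apply, lm_apply, smul_add, smul_mul_assoc, smul_mul_assoc]

theorem finrank_L : finrank K (QuadraticAlgebra K a b) = 2 := QuadraticAlgebra.finrank_eq_two a b

/-- The normalised directions. -/
def uu (a b : K) : Option K → QuadraticAlgebra K a b
  | some k => ⟨1, k⟩
  | none => ⟨0, 1⟩

/-- The normalised translations. -/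
def ee (a b : K) : Option K → K → QuadraticAlgebra K a b
  | some _, j => ⟨0, j⟩
  | none, j => ⟨j, 0⟩

theorem uu_ne_zero (o : Option K) : uu a b o ≠ 0 := by
  cases o with
  | none =>
    intro h
    have := congrArg QuadraticAlgebra.im h
    simp [uu] at this
  | some k =>
    intro h
    have := congrArg QuadraticAlgebra.re h
    simp [uu] at this

theorem idx_inj {o o' : Option K} {l : K} (h : uu a b o' = l • uu a b o) : o' = o ∧ l = 1 := by
  have h1 := congrArg QuadraticAlgebra.re h
  have h2 := congrArg QuadraticAlgebra.im h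
  cases o with
  | none =>
    cases o' with
    | none =>
      simp only [uu, im_smul, smul_eq_mul, mul_one] at h2
      exact ⟨rfl, h2.symm⟩
    | some k =>
      simp only [uu, re_smul, smul_eq_mul, mul_zero] at h1
      exact absurd h1 one_ne_zero
  | some k =>
    cases o' with
    | none =>
      simp only [uu, re_smul, im_smul, smul_eq_mul, mul_one] at h1 h2
      rw [← h1, zero_mul] at h2
      exact absurd h2 one_ne_zero
    | some k' =>
      simp only [uu, re_smul, im_smul, smul_eq_mul, mul_one] at h1 h2
      rw [← h1, one_mul] at h2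
      exact ⟨by rw [h2], h1.symm⟩

theorem ee_inj {o : Option K} {j j' l : K} (h : ee a b o j' = ee a b o j + l • uu a b o) :
    j' = j := by
  have h1 := congrArg QuadraticAlgebra.re h
  have h2 := congrArg QuadraticAlgebra.im h
  cases o with
  | none =>
    simpa only [uu, ee, re_smul, im_smul, smul_eq_mul, mul_one, re_add, im_add, mul_zero,
      add_zero] using h1
  | some k =>
    simp only [uu, ee, re_smul, im_smul, smul_eq_mul, mul_one, re_add, im_add, zero_add] at h1 h2
    rw [← h1, zero_mul, add_zero] at h2
    exact h2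

theorem idx_surj {u0 : QuadraticAlgebra K a b} (hu : u0 ≠ 0) :
    ∃ (o : Option K) (l : K), l ≠ 0 ∧ u0 = l • uu a b o := by
  by_cases hx : u0.re = 0
  · refine ⟨none, u0.im, ?_, ?_⟩
    · intro h
      exact hu (QuadraticAlgebra.ext hx h)
    · ext <;> simp [uu, hx]
  · refine ⟨some (u0.im / u0.re), u0.re, hx, ?_⟩
    ext
    · simp [uu]
    · simp only [uu, im_smul, smul_eq_mul]
      field_simp

theorem ee_surj (o : Option K) (g : QuadraticAlgebra K a b) :
    ∃ j l : K, g = ee a b o j + l • uu a b o := by
  cases o with
  | none =>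
    refine ⟨g.re, g.im, ?_⟩
    ext <;> simp [uu, ee]
  | some k =>
    refine ⟨g.im - g.re * k, g.re, ?_⟩
    ext
    · simp [uu, ee]
    · simp only [uu, ee, im_add, im_smul, smul_eq_mul]
      ring

theorem uu_some_zero : uu a b (some 0) = 1 := rfl

theorem uu_none_eq : uu a b none = ω := rfl

theorem ee_zero (o : Option K) : ee a b o 0 = 0 := by
  cases o <;> rfl

end

section field

variable {K : Type*} [Field K] {a b : K} [hn : Fact (∀ r : K, r ^ 2 ≠ a + b * r)]

omit hn in
theorem omega_ne_zero : (ω : QuadraticAlgebra K a b) ≠ 0 := by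
  intro h
  have := congrArg QuadraticAlgebra.im h
  simp at this

/-- separability -/
def Sep (a b : K) : Prop := (2 : K) ≠ 0 ∨ b ≠ 0

omit hn in
theorem star_omega_ne (hs : Sep a b) : star (ω : QuadraticAlgebra K a b) ≠ ω := by
  intro h
  have h1 := congrArg QuadraticAlgebra.re h
  have h2 := congrArg QuadraticAlgebra.im h
  simp only [re_star, im_star, omega_re, omega_im] at h1 h2
  rcases hs with h3 | h3
  · apply h3
    linear_combination -h2
  · apply h3
    linear_combination h1

omit hn in
theorem exists_smul_one_of_star {z : QuadraticAlgebra K a b} (hs : Sep a b) (hz : star z = z) :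
    z = z.re • (1 : QuadraticAlgebra K a b) := by
  have h := sub_star z
  rw [hz, sub_self] at h
  have hi : z.im = 0 := by
    rcases smul_eq_zero.mp h.symm with h1 | h1
    · exact h1
    · exact absurd (sub_eq_zero.mp h1).symm (star_omega_ne hs)
  ext
  · simp
  · simp [hi]

theorem lm_inj (hs : Sep a b) {c d c' d' : QuadraticAlgebra K a b} (h : lm c d = lm c' d') :
    c = c' ∧ d = d' := by
  have e1 : c + d = c' + d' := by
    have := congrArg (fun f => f 1) h
    simpa only [lm_apply, star_one, mul_one] using this
  have e2 : c * ω + d * star ω = c' * ω + d' * star ω := congrArg (fun f => f ω) h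
  have e3 : (d - d') * (star ω - ω) = 0 := by linear_combination e2 - ω * e1
  have hd : d = d' := by
    rcases mul_eq_zero.mp e3 with h3 | h3
    · exact sub_eq_zero.mp h3
    · exact absurd (sub_eq_zero.mp h3) (star_omega_ne hs)
  refine ⟨?_, hd⟩
  rw [hd] at e1
  exact add_right_cancel e1

/-- The admissible parameters. -/
def Good (α β : QuadraticAlgebra K a b) : Prop :=
  ∀ x : QuadraticAlgebra K a b, x ≠ 0 → ∀ t : K, α * x + β * star x ≠ t • x

theorem ind_u (α β u : QuadraticAlgebra K a b) (hg : Good α β) (hu : u ≠ 0) :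
    Ind (lm u 0) (lm (α * u) (β * star u)) := by
  intro x hx s t h
  rw [lm_apply, lm_apply, zero_mul, add_zero] at h
  have hux : u * x ≠ 0 := mul_ne_zero hu hx
  have ht : t = 0 := by
    by_contra ht
    apply hg (u * x) hux (-(s / t))
    have h1 : t • (α * (u * x) + β * star (u * x)) = t • (-(s / t) • (u * x)) := by
      rw [smul_smul, mul_neg, mul_div_cancel₀ _ ht, neg_smul, star_mul]
      apply eq_neg_of_add_eq_zero_right
      rw [← h]
      congr 2
      ring
    exact smul_right_injective _ ht h1
  subst ht
  rw [zero_smul, add_zero, smul_eq_zero] at h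
  rcases h with h | h
  · exact ⟨h, rfl⟩
  · exact absurd h hux

theorem ind_one_omega : Ind (lm (1 : QuadraticAlgebra K a b) 0) (lm ω 0) := by
  intro x hx s t h
  rw [lm_apply, lm_apply, zero_mul, add_zero, add_zero, ← smul_mul_assoc, ← smul_mul_assoc,
    ← add_mul] at h
  rcases mul_eq_zero.mp h with h1 | h1
  · have h2 := congrArg QuadraticAlgebra.re h1
    have h3 := congrArg QuadraticAlgebra.im h1
    simp only [re_add, im_add, re_smul, im_smul, re_one, im_one, omega_re, omega_im,
      smul_eq_mul, mul_one, mul_zero, add_zero, zero_add, re_zero, im_zero] at h2 h3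
    exact ⟨h2, h3⟩
  · exact absurd h1 hx

theorem ind_omega_one : Ind (lm (ω : QuadraticAlgebra K a b) 0) (lm 1 0) := by
  intro x hx s t h
  obtain ⟨h1, h2⟩ := ind_one_omega x hx t s (by rw [add_comm]; exact h)
  exact ⟨h2, h1⟩

/-- every linear map with `m x = y`, `m z = w` -/
theorem exists_lm (hs : Sep a b) {p z : QuadraticAlgebra K a b} (hp : p ≠ 0)
    (hz : ∀ l : K, z ≠ l • p) (q w : QuadraticAlgebra K a b) :
    ∃ c d, lm c d p = q ∧ lm c d z = w := by
  set D := star p * z - p * star z with hD
  have hD0 : D ≠ 0 := by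
    intro h
    have hz1 : star (z / p) = z / p := by
      rw [star_div₀, div_eq_div_iff (by simpa using hp) hp]
      rw [hD, sub_eq_zero] at h
      rw [mul_comm (star z), ← h, mul_comm]
    have h2 := exists_smul_one_of_star hs hz1
    apply hz (z / p).re
    have h6 : z = (z / p) * p := (div_mul_cancel₀ _ hp).symm
    rw [h2, smul_mul_assoc, one_mul] at h6
    exact h6
  obtain ⟨d', hd'⟩ : ∃ d', d' = (q * z - w * p) / D := ⟨_, rfl⟩
  obtain ⟨g, hg⟩ : ∃ g, g = (q - d' * star p) / p := ⟨_, rfl⟩
  have e1 : q = g * p + d' * star p := by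
    rw [hg, div_mul_cancel₀ _ hp]; ring
  have e2 : w = g * z + d' * star z := by
    have h5 : d' * D = q * z - w * p := by rw [hd']; exact div_mul_cancel₀ _ hD0
    have h6 : p * w = p * (g * z + d' * star z) := by
      rw [hD] at h5
      linear_combination h5 + z * e1
    exact mul_left_cancel₀ hp h6
  exact ⟨g, d', e1.symm, e2.symm⟩

end field

end Pool.Agent.KS6_17.PG3
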