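import Pool.Agent.KS6_17.PG3.Defs

namespace Pool.Agent.KS6_17.PG3

open Module

variable {K V : Type*} [Field K] [AddCommGroup V] [Module K V]

theorem finrank_comap_mkQ [FiniteDimensional K V] (p : Submodule K V) (H : Submodule K (V ⧸ p)) :
    finrank K (H.comap p.mkQ) = finrank K H + finrank K p := by
  set m := H.comap p.mkQ with hm
  have hpm : p ≤ m := Submodule.le_comap_mkQ p H
  let f := p.mkQ.domRestrict m
  have h1 := f.finrank_range_add_finrank_ker
  have h2 : LinearMap.range f = H := by
    rw [LinearMap.range_domRestrict]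
    exact Submodule.map_comap_eq_of_surjective (Submodule.mkQ_surjective p) H
  have h3 : LinearMap.ker f = p.submoduleOf m := by
    ext x
    simp only [f, LinearMap.mem_ker, LinearMap.domRestrict_apply, Submodule.mkQ_apply,
      Submodule.Quotient.mk_eq_zero]
    exact Iff.rfl
  rw [h2, h3, (Submodule.submoduleOfEquivOfLe hpm).finrank_eq] at h1
  exact h1.symm

/-- The number of lines through a point of `PG(3, q)` is `q ^ 2 + q + 1`. -/
theorem ncard_lines_through [Finite K] (hV : finrank K V = 4) {v : V} (hv : v ≠ 0) :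
    {m : Submodule K V | finrank K m = 2 ∧ v ∈ m}.ncard = Nat.card K ^ 2 + Nat.card K + 1 := by
  have : FiniteDimensional K V := FiniteDimensional.of_finrank_pos (by omega)
  set p : Submodule K V := Submodule.span K {v} with hp
  have hp1 : finrank K p = 1 := finrank_span_singleton hv
  have hq : finrank K (V ⧸ p) = 3 := by
    have := Submodule.finrank_quotient_add_finrank p
    omega
  have key : {m : Submodule K V | finrank K m = 2 ∧ v ∈ m} =
      (fun H : {H : Submodule K (V ⧸ p) // finrank K H = 1} => H.1.comap p.mkQ) '' Set.univ := by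
    ext m
    simp only [Set.mem_ofPred_eq, Set.image_univ, Set.mem_range, Subtype.exists, exists_prop]
    constructor
    · rintro ⟨h2, hvm⟩
      have hpm : p ≤ m := by rw [hp]; simpa using hvm
      have hc : (m.map p.mkQ).comap p.mkQ = m := by
        rw [Submodule.comap_map_mkQ, sup_eq_right.mpr hpm]
      refine ⟨m.map p.mkQ, ?_, hc⟩
      have := finrank_comap_mkQ p (m.map p.mkQ)
      rw [hc] at this
      omega
    · rintro ⟨H, hH, rfl⟩
      refine ⟨by rw [finrank_comap_mkQ, hH, hp1], ?_⟩
      exact Submodule.le_comap_mkQ p H (Submodule.mem_span_singleton_self v)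
  rw [key, Set.ncard_image_of_injective _ ?_, Set.ncard_univ,
    ← Nat.card_congr (Projectivization.equivSubmodule K (V ⧸ p)),
    Projectivization.card_of_finrank K (V ⧸ p) hq]
  · simp [Finset.sum_range_succ]
    ring
  · rintro ⟨H, hH⟩ ⟨H', hH'⟩ h
    simp only at h
    have := Submodule.comap_injective_of_surjective (Submodule.mkQ_surjective p) h
    simpa using this

/-- Deficiency one is impossible. -/
theorem not_deficiency_one [Finite K] (hV : finrank K V = 4) (P : Set (Set (Submodule K V))) :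
    ¬ IsCompletePartialPacking K V P 1 := by
  rintro ⟨h1, h2, h3, h4⟩
  have : FiniteDimensional K V := FiniteDimensional.of_finrank_pos (by omega)
  have : Finite V := Module.finite_of_finite K
  have : Finite (Submodule K V) := inferInstance
  apply h4
  refine ⟨{m | finrank K m = 2 ∧ ∀ T ∈ P, m ∉ T}, ⟨fun m hm => hm.1, fun v hv => ?_⟩, ?_⟩
  · -- the lines through `v`
    set Lv := {m : Submodule K V | finrank K m = 2 ∧ v ∈ m} with hLv
    have hcard := ncard_lines_through hV hv
    rw [← hLv] at hcard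
    -- the map sending a member of `P` to its line through `v`
    choose! g hg using fun S (hS : S ∈ P) => ((h1 S hS).2 v hv).exists
    have hinj : Set.InjOn g P := by
      intro S hS T hT hST
      by_contra hne
      have := h2 S hS T hT hne
      exact Set.disjoint_left.mp this (hg S hS).1 (hST ▸ (hg T hT).1)
    have himg : g '' P ⊆ Lv := by
      rintro _ ⟨S, hS, rfl⟩
      exact ⟨(h1 S hS).1 _ (hg S hS).1, (hg S hS).2⟩
    have hcard' : (Lv \ g '' P).ncard = 1 := by
      rw [Set.ncard_sdiff himg, hcard, hinj.ncard_image]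
      omega
    obtain ⟨m, hm⟩ := Set.ncard_eq_one.mp hcard'
    have hm' : ∀ m', m' ∈ Lv \ g '' P ↔ m' = m := by
      intro m'; rw [hm]; rfl
    have hiff : ∀ m' : Submodule K V,
        (m' ∈ {m : Submodule K V | finrank K m = 2 ∧ ∀ T ∈ P, m ∉ T} ∧ v ∈ m') ↔
        m' ∈ Lv \ g '' P := by
      intro m'
      simp only [Set.mem_ofPred_eq, Set.mem_sdiff, hLv, Set.mem_image, not_exists, not_and]
      constructor
      · rintro ⟨⟨ha, hb⟩, hc⟩
        refine ⟨⟨ha, hc⟩, fun S hS hSm => hb S hS (hSm ▸ (hg S hS).1)⟩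
      · rintro ⟨⟨ha, hc⟩, hb⟩
        refine ⟨⟨ha, fun S hS hSm => hb S hS ?_⟩, hc⟩
        exact ((h1 S hS).2 v hv).unique (hg S hS) ⟨hSm, hc⟩
    refine ⟨m, (hiff m).mpr ((hm' m).mpr rfl), fun m' hm'' => (hm' m').mp ((hiff m').mp hm'')⟩
  · intro T hT
    rw [Set.disjoint_left]
    intro m hm hmT
    exact hm.2 T hT hmT

section transport

variable {W : Type*} [AddCommGroup W] [Module K W]

theorem isSpread_image (e : V ≃ₗ[K] W) (S : Set (Submodule K V)) :
    IsSpread K W ((Submodule.orderIsoMapComap e) '' S) ↔ IsSpread K V S := by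
  have hfin : ∀ m : Submodule K V, finrank K (Submodule.orderIsoMapComap e m) = finrank K m := by
    intro m
    exact LinearEquiv.finrank_map_eq e m
  have hmem : ∀ (m : Submodule K V) (w : W), w ∈ Submodule.orderIsoMapComap e m ↔ e.symm w ∈ m := by
    intro m w
    exact Submodule.mem_map_equiv m
  constructor
  · rintro ⟨h1, h2⟩
    refine ⟨fun m hm => by rw [← hfin]; exact h1 _ ⟨m, hm, rfl⟩, fun v hv => ?_⟩
    obtain ⟨m, ⟨⟨m0, hm0, rfl⟩, hm⟩, hu⟩ := h2 (e v) (by simpa using hv)
    rw [hmem, e.symm_apply_apply] at hm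
    refine ⟨m0, ⟨hm0, hm⟩, fun m' hm' => ?_⟩
    have := hu (Submodule.orderIsoMapComap e m') ⟨⟨m', hm'.1, rfl⟩, by
      rw [hmem, e.symm_apply_apply]; exact hm'.2⟩
    exact (Submodule.orderIsoMapComap e).injective this
  · rintro ⟨h1, h2⟩
    refine ⟨?_, fun w hw => ?_⟩
    · rintro _ ⟨m, hm, rfl⟩
      rw [hfin]; exact h1 m hm
    obtain ⟨m, ⟨hm, hvm⟩, hu⟩ := h2 (e.symm w) (by simpa using hw)
    refine ⟨Submodule.orderIsoMapComap e m, ⟨⟨m, hm, rfl⟩, by rw [hmem]; exact hvm⟩, ?_⟩
    rintro _ ⟨⟨m', hm', rfl⟩, hw'⟩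
    rw [hmem] at hw'
    rw [hu m' ⟨hm', hw'⟩]

theorem transport (e : V ≃ₗ[K] W) {P : Set (Set (Submodule K V))} {d : ℕ}
    (hP : IsCompletePartialPacking K V P d) :
    ∃ Q, IsCompletePartialPacking K W Q d := by
  obtain ⟨h1, h2, h3, h4⟩ := hP
  set φ := Submodule.orderIsoMapComap e with hφ
  have hφi : Function.Injective (fun S : Set (Submodule K V) => φ '' S) :=
    Set.image_injective.mpr φ.injective
  refine ⟨(fun S : Set (Submodule K V) => φ '' S) '' P, ?_, ?_, ?_, ?_⟩
  · rintro _ ⟨S, hS, rfl⟩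
    exact (isSpread_image e S).mpr (h1 S hS)
  · rintro _ ⟨S, hS, rfl⟩ _ ⟨T, hT, rfl⟩ hne
    have hne' : S ≠ T := by rintro rfl; exact hne rfl
    exact (Set.disjoint_image_iff φ.injective).mpr (h2 S hS T hT hne')
  · rw [Set.ncard_image_of_injective _ hφi]; exact h3
  · rintro ⟨S, hS, hd⟩
    apply h4
    refine ⟨φ ⁻¹' S, ?_, fun T hT => ?_⟩
    · rw [← isSpread_image e, ← hφ, Set.image_preimage_eq _ φ.surjective]
      exact hS
    · have := hd _ ⟨T, hT, rfl⟩
      simp only at this
      rw [← Set.image_preimage_eq S φ.surjective] at this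
      exact (Set.disjoint_image_iff φ.injective).mp this

end transport

end Pool.Agent.KS6_17.PG3
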