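import Pool.Agent.KS6_17.PG3.General

/-!
# Hall spreads and Desarguesian spreads

`E` is a two-dimensional vector space over `K`, the lines of the projective space of `E × E`
are the graphs of linear maps `E → E`, the vertical line, and the lines `opp f g x` spanned by
`(x, f x)` and `(0, g x)`.
-/

namespace Pool.Agent.KS6_17.PG3

open Module

variable {K E : Type*} [Field K] [AddCommGroup E] [Module K E]

/-- the graph of a linear map -/
def gr (f : E →ₗ[K] E) : Submodule K (E × E) := LinearMap.range (LinearMap.prod LinearMap.id f)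

/-- the line spanned by `(x, f x)` and `(0, g x)` -/
def opp (f g : E →ₗ[K] E) (x : E) : Submodule K (E × E) :=
  LinearMap.range (LinearMap.prod ((LinearMap.toSpanSingleton K _ x).comp (LinearMap.fst K K K))
    ((LinearMap.toSpanSingleton K _ (f x)).comp (LinearMap.fst K K K) +
      (LinearMap.toSpanSingleton K _ (g x)).comp (LinearMap.snd K K K)))

/-- the line `{0} × E` -/
def vert (K E : Type*) [Field K] [AddCommGroup E] [Module K E] : Submodule K (E × E) :=
  LinearMap.range (LinearMap.inr K E E)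

theorem mem_gr {f : E →ₗ[K] E} {v : E × E} : v ∈ gr f ↔ v.2 = f v.1 := by
  obtain ⟨a, b⟩ := v
  constructor
  · rintro ⟨y, hy⟩
    have h1 : y = a := congrArg Prod.fst hy
    have h2 : f y = b := congrArg Prod.snd hy
    subst h1
    exact h2.symm
  · intro h
    exact ⟨a, Prod.ext rfl h.symm⟩

theorem mem_opp {f g : E →ₗ[K] E} {x : E} {v : E × E} :
    v ∈ opp f g x ↔ ∃ s t : K, v.1 = s • x ∧ v.2 = s • f x + t • g x := by
  obtain ⟨a, b⟩ := v
  constructor
  · rintro ⟨⟨s, t⟩, hy⟩
    have h1 : s • x = a := congrArg Prod.fst hy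
    have h2 : s • f x + t • g x = b := congrArg Prod.snd hy
    exact ⟨s, t, h1.symm, h2.symm⟩
  · rintro ⟨s, t, h1, h2⟩
    exact ⟨(s, t), Prod.ext h1.symm h2.symm⟩

theorem mem_vert {v : E × E} : v ∈ vert K E ↔ v.1 = 0 := by
  obtain ⟨a, b⟩ := v
  constructor
  · rintro ⟨y, h⟩
    exact (congrArg Prod.fst h).symm
  · intro h
    exact ⟨b, Prod.ext h.symm rfl⟩

theorem finrank_gr (f : E →ₗ[K] E) : finrank K (gr f) = finrank K E := by
  rw [gr, LinearMap.finrank_range_of_inj]
  intro x y h
  exact congrArg Prod.fst h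

theorem finrank_vert : finrank K (vert K E) = finrank K E := by
  rw [vert, LinearMap.finrank_range_of_inj]
  intro x y h
  simpa using h

theorem finrank_opp {f g : E →ₗ[K] E} {x : E} (hx : x ≠ 0) (hg : g x ≠ 0) :
    finrank K (opp f g x) = 2 := by
  rw [opp, LinearMap.finrank_range_of_inj]
  · simp
  · rw [← LinearMap.ker_eq_bot, LinearMap.ker_eq_bot']
    rintro ⟨s, t⟩ h
    have h1 : s • x = 0 := congrArg Prod.fst h
    have h2 : s • f x + t • g x = 0 := congrArg Prod.snd h
    simp only [smul_eq_zero, hx, or_false] at h1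
    subst h1
    simp only [zero_smul, zero_add, smul_eq_zero, hg, or_false] at h2
    simp [h2]

theorem opp_smul {f g : E →ₗ[K] E} {x : E} {s : K} (hs : s ≠ 0) : opp f g (s • x) = opp f g x := by
  ext v
  rw [mem_opp, mem_opp]
  constructor
  · rintro ⟨s', t', h1, h2⟩
    refine ⟨s' * s, t' * s, by rw [h1, smul_smul], ?_⟩
    rw [h2, map_smul, map_smul, smul_smul, smul_smul]
  · rintro ⟨s', t', h1, h2⟩
    refine ⟨s' / s, t' / s, ?_, ?_⟩
    · rw [h1, smul_smul, div_mul_cancel₀ _ hs]
    · rw [h2, map_smul, map_smul, smul_smul, smul_smul, div_mul_cancel₀ _ hs,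
        div_mul_cancel₀ _ hs]

/-- `g x` and `h x` are linearly independent for every `x ≠ 0` -/
def Ind (g h : E →ₗ[K] E) : Prop :=
  ∀ x, x ≠ 0 → ∀ s t : K, s • g x + t • h x = 0 → s = 0 ∧ t = 0

theorem Ind.left_ne {g h : E →ₗ[K] E} (hi : Ind g h) {x : E} (hx : x ≠ 0) : g x ≠ 0 := by
  intro h0
  exact one_ne_zero (hi x hx 1 0 (by simp [h0])).1

theorem Ind.exUnique {g h : E →ₗ[K] E} (hi : Ind g h) (hE : finrank K E = 2) {x : E}
    (hx : x ≠ 0) (y : E) : ∃! st : K × K, y = st.1 • g x + st.2 • h x := by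
  have : FiniteDimensional K E := FiniteDimensional.of_finrank_pos (by omega)
  let φ : K × K →ₗ[K] E :=
    (LinearMap.toSpanSingleton K _ (g x)).comp (LinearMap.fst K K K) +
      (LinearMap.toSpanSingleton K _ (h x)).comp (LinearMap.snd K K K)
  have hφ : ∀ tr, φ tr = tr.1 • g x + tr.2 • h x := by
    intro tr; simp [φ]
  have hinj : Function.Injective φ := by
    rw [← LinearMap.ker_eq_bot, LinearMap.ker_eq_bot']
    rintro ⟨t, r⟩ h0
    rw [hφ] at h0
    obtain ⟨h1, h2⟩ := hi x hx _ _ h0
    simp only at h1 h2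
    rw [h1, h2]; rfl
  have hsurj : Function.Surjective φ := by
    rw [← LinearMap.injective_iff_surjective_of_finrank_eq_finrank]
    · exact hinj
    · rw [hE]; simp
  obtain ⟨tr, htr⟩ := hsurj y
  refine ⟨tr, by simp only; rw [← hφ, htr], fun tr' h => hinj ?_⟩
  rw [htr, hφ]
  exact h.symm

/-- The Hall spread attached to `f`, `g`, `h`. -/
def Hall (f g h : E →ₗ[K] E) : Set (Submodule K (E × E)) :=
  {m | (∃ s t : K, t ≠ 0 ∧ m = gr (f + s • g + t • h)) ∨ ∃ x, x ≠ 0 ∧ m = opp f g x}

/-- The Desarguesian spread attached to `f`, `g`, `h`. -/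
def Des (f g h : E →ₗ[K] E) : Set (Submodule K (E × E)) :=
  {m | (∃ s t : K, m = gr (f + s • g + t • h)) ∨ m = vert K E}

theorem isSpread_des {f g h : E →ₗ[K] E} (hE : finrank K E = 2) (hi : Ind g h) :
    IsSpread K (E × E) (Des f g h) := by
  refine ⟨?_, ?_⟩
  · rintro m (⟨s, t, rfl⟩ | rfl)
    · rw [finrank_gr, hE]
    · rw [finrank_vert, hE]
  rintro ⟨p, q⟩ hv
  by_cases hp : p = 0
  · subst hp
    have hq : q ≠ 0 := by
      rintro rfl; exact hv rfl
    refine ⟨vert K E, ⟨Or.inr rfl, by rw [mem_vert]⟩, ?_⟩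
    rintro m ⟨⟨s, t, rfl⟩ | rfl, hm⟩
    · rw [mem_gr] at hm
      simp only [map_zero] at hm
      exact absurd hm hq
    · rfl
  · obtain ⟨⟨s, t⟩, hst, huniq⟩ := hi.exUnique hE hp (q - f p)
    simp only at hst
    refine ⟨gr (f + s • g + t • h), ⟨Or.inl ⟨s, t, rfl⟩, ?_⟩, ?_⟩
    · rw [mem_gr]
      simp only [LinearMap.add_apply, LinearMap.smul_apply]
      rw [add_assoc, ← hst]; abel
    · rintro m ⟨⟨s', t', rfl⟩ | rfl, hm⟩
      · rw [mem_gr] at hm
        simp only [LinearMap.add_apply, LinearMap.smul_apply] at hm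
        have := huniq (s', t') (by simp only; rw [hm]; abel)
        simp only [Prod.mk.injEq] at this
        rw [this.1, this.2]
      · rw [mem_vert] at hm
        exact absurd hm hp

theorem isSpread_hall {f g h : E →ₗ[K] E} (hE : finrank K E = 2) (hi : Ind g h) :
    IsSpread K (E × E) (Hall f g h) := by
  have : FiniteDimensional K E := FiniteDimensional.of_finrank_pos (by omega)
  refine ⟨?_, ?_⟩
  · rintro m (⟨s, t, -, rfl⟩ | ⟨x, hx, rfl⟩)
    · rw [finrank_gr, hE]
    · exact finrank_opp hx (hi.left_ne hx)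
  rintro ⟨p, q⟩ hv
  by_cases hp : p = 0
  · subst hp
    have hq : q ≠ 0 := by
      rintro rfl; exact hv rfl
    have hginj : Function.Injective g := by
      rw [← LinearMap.ker_eq_bot, LinearMap.ker_eq_bot']
      intro x hx
      by_contra hne
      exact hi.left_ne hne hx
    obtain ⟨x, rfl⟩ := (LinearMap.injective_iff_surjective.mp hginj) q
    have hx : x ≠ 0 := by
      rintro rfl; exact hq (map_zero g)
    refine ⟨opp f g x, ⟨Or.inr ⟨x, hx, rfl⟩, ?_⟩, ?_⟩
    · rw [mem_opp]
      exact ⟨0, 1, by simp, by simp⟩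
    · rintro m ⟨⟨s, t, -, rfl⟩ | ⟨x', hx', rfl⟩, hm⟩
      · rw [mem_gr] at hm
        simp only [map_zero] at hm
        exact absurd hm hq
      · rw [mem_opp] at hm
        obtain ⟨s, t, h1, h2⟩ := hm
        simp only at h1 h2
        have hs : s = 0 := by
          rcases smul_eq_zero.mp h1.symm with h | h
          · exact h
          · exact absurd h hx'
        subst hs
        rw [zero_smul, zero_add, ← map_smul] at h2
        have h3 := hginj h2
        have ht : t ≠ 0 := by
          rintro rfl; rw [zero_smul] at h3; exact hx h3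
        rw [h3, opp_smul ht]
  · obtain ⟨⟨s, t⟩, hst, huniq⟩ := hi.exUnique hE hp (q - f p)
    simp only at hst
    have hopp : ∀ x, x ≠ 0 → (p, q) ∈ opp f g x → t = 0 ∧ opp f g x = opp f g p := by
      intro x hx hm
      rw [mem_opp] at hm
      obtain ⟨s', t', h1, h2⟩ := hm
      simp only at h1 h2
      have hs : s' ≠ 0 := by
        rintro rfl; rw [zero_smul] at h1; exact hp h1
      refine ⟨?_, by rw [h1, opp_smul hs]⟩
      have := huniq (t' / s', 0) (by
        simp only
        rw [h2, h1, map_smul, map_smul, smul_smul, div_mul_cancel₀ _ hs, zero_smul, add_zero]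
        abel)
      simp only [Prod.mk.injEq] at this
      exact this.2.symm
    by_cases ht : t = 0
    · subst ht
      refine ⟨opp f g p, ⟨Or.inr ⟨p, hp, rfl⟩, ?_⟩, ?_⟩
      · rw [mem_opp]
        refine ⟨1, s, by simp, ?_⟩
        simp only [one_smul]
        rw [zero_smul, add_zero] at hst
        rw [← hst]; abel
      · rintro m ⟨⟨s', t', ht', rfl⟩ | ⟨x', hx', rfl⟩, hm⟩
        · rw [mem_gr] at hm
          simp only [LinearMap.add_apply, LinearMap.smul_apply] at hm
          have := huniq (s', t') (by simp only; rw [hm]; abel)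
          simp only [Prod.mk.injEq] at this
          exact absurd this.2 ht'
        · exact (hopp x' hx' hm).2
    · refine ⟨gr (f + s • g + t • h), ⟨Or.inl ⟨s, t, ht, rfl⟩, ?_⟩, ?_⟩
      · rw [mem_gr]
        simp only [LinearMap.add_apply, LinearMap.smul_apply]
        rw [add_assoc, ← hst]; abel
      · rintro m ⟨⟨s', t', ht', rfl⟩ | ⟨x', hx', rfl⟩, hm⟩
        · rw [mem_gr] at hm
          simp only [LinearMap.add_apply, LinearMap.smul_apply] at hm
          have := huniq (s', t') (by simp only; rw [hm]; abel)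
          simp only [Prod.mk.injEq] at this
          rw [this.1, this.2]
        · exact absurd (hopp x' hx' hm).1 ht

theorem gr_injective {f f' : E →ₗ[K] E} (h : gr f = gr f') : f = f' := by
  ext x
  have : (x, f x) ∈ gr f := by rw [mem_gr]
  rw [h, mem_gr] at this
  exact this

theorem gr_ne_opp {f f' g : E →ₗ[K] E} {x : E} (hg : g x ≠ 0) : gr f ≠ opp f' g x := by
  intro h
  have : ((0, g x) : E × E) ∈ opp f' g x := by
    rw [mem_opp]
    exact ⟨0, 1, by simp, by simp⟩
  rw [← h, mem_gr] at this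
  simp only [map_zero] at this
  exact hg this

theorem vert_ne_opp {f' g : E →ₗ[K] E} {x : E} (hx : x ≠ 0) : vert K E ≠ opp f' g x := by
  intro h
  have : ((x, f' x) : E × E) ∈ opp f' g x := by
    rw [mem_opp]
    exact ⟨1, 0, by simp, by simp⟩
  rw [← h, mem_vert] at this
  exact hx this

theorem vert_ne_gr {f : E →ₗ[K] E} (hE : finrank K E = 2) : vert K E ≠ gr f := by
  intro h
  have : Nontrivial E := nontrivial_of_finrank_pos (R := K) (by omega)
  obtain ⟨x, hx⟩ := exists_ne (0 : E)
  have : ((x, f x) : E × E) ∈ gr f := by rw [mem_gr]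
  rw [← h, mem_vert] at this
  exact hx this

theorem opp_eq {f g f' g' : E →ₗ[K] E} {x x' : E} (hx : x ≠ 0) (hx' : x' ≠ 0) (hg' : g' x' ≠ 0)
    (h : opp f g x = opp f' g' x') :
    ∃ k l : K, k ≠ 0 ∧ g' x = k • g x ∧ f' x = f x + l • g x := by
  have m1 : ((0, g' x') : E × E) ∈ opp f' g' x' := by
    rw [mem_opp]
    exact ⟨0, 1, by simp, by simp⟩
  have m2 : ((x', f' x') : E × E) ∈ opp f' g' x' := by
    rw [mem_opp]
    exact ⟨1, 0, by simp, by simp⟩
  rw [← h, mem_opp] at m1 m2
  obtain ⟨s1, t1, h3, h4⟩ := m1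
  obtain ⟨s2, t2, h5, h6⟩ := m2
  simp only at h3 h4 h5 h6
  have hs1 : s1 = 0 := by
    rcases smul_eq_zero.mp h3.symm with h | h
    · exact h
    · exact absurd h hx
  subst hs1
  rw [zero_smul, zero_add] at h4
  have hs2 : s2 ≠ 0 := by
    rintro rfl; rw [zero_smul] at h5; exact hx' h5
  have ht1 : t1 ≠ 0 := by
    rintro rfl; rw [zero_smul] at h4; exact hg' h4
  refine ⟨t1 / s2, t2 / s2, div_ne_zero ht1 hs2, ?_, ?_⟩
  · have h7 : s2 • g' x = t1 • g x := by rw [← map_smul, ← h5, h4]
    rw [div_eq_inv_mul, mul_smul, ← h7, smul_smul, inv_mul_cancel₀ hs2, one_smul]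
  · have h7 : s2 • f' x = s2 • f x + t2 • g x := by rw [← map_smul, ← h5, h6]
    rw [div_eq_inv_mul, mul_smul]
    apply smul_right_injective E hs2
    simp only [smul_add, smul_smul, mul_inv_cancel_left₀ hs2]
    exact h7

end Pool.Agent.KS6_17.PG3
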