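import Pool.Agent.KS6_17.PG3.Fld

/-!
# The partial packing
-/

namespace Pool.Agent.KS6_17.PG3

open Module QuadraticAlgebra

open scoped Classical in
/-- The members of the partial packing, indexed by the pairs other than `(some 0, 0)`. -/
noncomputable def Mem {K : Type*} [Field K] {a b : K} (α β : QuadraticAlgebra K a b)
    (i : Option K × K) :
    Set (Submodule K (QuadraticAlgebra K a b × QuadraticAlgebra K a b)) :=
  if i.1 = some 0 then
    if i.2 = 1 then Des (lm (i.2 • α) (i.2 • β)) (lm 1 0) (lm ω 0)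
    else Hall (lm (i.2 • α) (i.2 • β)) (lm 1 0) (lm ω 0)
  else if i = (none, 0) then Hall (lm 0 0) (lm ω 0) (lm 1 0)
  else Hall (lm (ee a b i.1 i.2) 0) (lm (uu a b i.1) 0)
    (lm (α * uu a b i.1) (β * star (uu a b i.1)))

open scoped Classical in
/-- the map defining the opposite regulus -/
noncomputable def FF {K : Type*} [Field K] {a b : K} (α β : QuadraticAlgebra K a b)
    (i : Option K × K) : QuadraticAlgebra K a b →ₗ[K] QuadraticAlgebra K a b :=
  if i.1 = some 0 then lm (i.2 • α) (i.2 • β) else lm (ee a b i.1 i.2) 0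

variable {K : Type*} [Field K] {a b : K}

/-- the graph lines of the members -/
def PG (α β : QuadraticAlgebra K a b) (i : Option K × K) (c d : QuadraticAlgebra K a b) : Prop :=
  (i = (none, 0) ∧ d = 0) ∨ (i ≠ (none, 0) ∧ ∃ ν : K, ν ≠ 0 ∧
    d = ν • (β * star (uu a b i.1)) ∧ (i.1 = some 0 → ν = i.2) ∧
    (i.1 ≠ some 0 → ∃ l : K, c = ee a b i.1 i.2 + l • uu a b i.1 + ν • (α * uu a b i.1)))

theorem mem_cases {α β : QuadraticAlgebra K a b} {i : Option K × K} (hi : i ≠ (some 0, 0))
    {m : Submodule K (QuadraticAlgebra K a b × QuadraticAlgebra K a b)} (hm : m ∈ Mem α β i) :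
    (∃ c d, m = gr (lm c d) ∧ PG α β i c d) ∨
      (∃ x, x ≠ 0 ∧ m = opp (FF α β i) (lm (uu a b i.1) 0) x) ∨
      (m = vert K _ ∧ i = (some 0, 1)) := by
  obtain ⟨o, j⟩ := i
  by_cases ho : o = some 0
  · subst ho
    have hj : j ≠ 0 := fun h => hi (by rw [h])
    have hne : ((some 0, j) : Option K × K) ≠ (none, 0) := by
      intro h; simpa using congrArg Prod.fst h
    by_cases hj1 : j = 1
    · subst hj1
      simp only [Mem, if_true] at hm
      rcases hm with ⟨s, t, rfl⟩ | rfl
      · left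
        rw [lm_smul, lm_smul, lm_add, lm_add]
        refine ⟨_, _, rfl, Or.inr ⟨hne, 1, hj, ?_, fun _ => rfl, fun h => absurd rfl h⟩⟩
        rw [uu_some_zero, star_one, mul_one, smul_zero, smul_zero, add_zero, add_zero]
      · right; right; exact ⟨rfl, rfl⟩
    · simp only [Mem, if_true, hj1, if_false] at hm
      rcases hm with ⟨s, t, ht, rfl⟩ | ⟨x, hx, rfl⟩
      · left
        rw [lm_smul, lm_smul, lm_add, lm_add]
        refine ⟨_, _, rfl, Or.inr ⟨hne, j, hj, ?_, fun _ => rfl, fun h => absurd rfl h⟩⟩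
        rw [uu_some_zero, star_one, mul_one, smul_zero, smul_zero, add_zero, add_zero]
      · right; left
        refine ⟨x, hx, ?_⟩
        simp only [FF, if_true, uu_some_zero]
  · by_cases hij : (o, j) = ((none, 0) : Option K × K)
    · simp only [Mem, ho, if_false, hij, if_true] at hm
      obtain ⟨rfl, rfl⟩ := Prod.mk.injEq .. ▸ hij
      rcases hm with ⟨s, t, ht, rfl⟩ | ⟨x, hx, rfl⟩
      · left
        rw [lm_smul, lm_smul, lm_add, lm_add]
        refine ⟨_, _, rfl, Or.inl ⟨rfl, ?_⟩⟩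
        rw [smul_zero, smul_zero, add_zero, add_zero]
      · right; left
        refine ⟨x, hx, ?_⟩
        simp only [FF, ho, if_false, uu_none_eq, ee_zero]
    · simp only [Mem, ho, if_false, hij] at hm
      rcases hm with ⟨s, t, ht, rfl⟩ | ⟨x, hx, rfl⟩
      · left
        rw [lm_smul, lm_smul, lm_add, lm_add]
        refine ⟨_, _, rfl, Or.inr ⟨hij, t, ht, ?_, fun h => absurd h ho, fun _ => ⟨s, rfl⟩⟩⟩
        rw [smul_zero, zero_add, zero_add]
      · right; left
        refine ⟨x, hx, ?_⟩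
        simp only [FF, ho, if_false]

theorem mem_gr_of {α β : QuadraticAlgebra K a b} {i : Option K × K} (ho : i.1 ≠ some 0)
    (hi : i ≠ (none, 0)) (l ν : K) (hν : ν ≠ 0) :
    gr (lm (ee a b i.1 i.2 + l • uu a b i.1 + ν • (α * uu a b i.1))
      (ν • (β * star (uu a b i.1)))) ∈ Mem α β i := by
  simp only [Mem, ho, if_false, hi]
  refine Or.inl ⟨l, ν, hν, ?_⟩
  rw [lm_smul, lm_smul, lm_add, lm_add]
  congr 2
  rw [smul_zero, zero_add, zero_add]

theorem mem_gr_none {α β : QuadraticAlgebra K a b} (l ν : K) (hν : ν ≠ 0) :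
    gr (lm (l • ω + ν • (1 : QuadraticAlgebra K a b)) 0) ∈ Mem α β (none, 0) := by
  have h : (none : Option K) ≠ some 0 := by simp
  simp only [Mem, h, if_false, if_true]
  refine Or.inl ⟨l, ν, hν, ?_⟩
  rw [lm_smul, lm_smul, lm_add, lm_add]
  congr 2
  · rw [zero_add]
  · rw [smul_zero, smul_zero, add_zero, add_zero]

theorem mem_gr_some {α β : QuadraticAlgebra K a b} (s l ν : K) (hν : s ≠ 1 → ν ≠ 0) :
    gr (lm (s • α + l • (1 : QuadraticAlgebra K a b) + ν • ω) (s • β)) ∈ Mem α β (some 0, s) := by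
  have key : gr (lm (s • α + l • (1 : QuadraticAlgebra K a b) + ν • ω) (s • β)) =
      gr (lm (s • α) (s • β) + l • lm 1 0 + ν • lm ω 0) := by
    rw [lm_smul, lm_smul, lm_add, lm_add]
    congr 2
    rw [smul_zero, smul_zero, add_zero, add_zero]
  rw [key]
  by_cases hs : s = 1
  · simp only [Mem, if_true, hs]
    exact Or.inl ⟨l, ν, rfl⟩
  · simp only [Mem, if_true, hs, if_false]
    exact Or.inl ⟨l, ν, hν hs, rfl⟩

theorem mem_opp_of {α β : QuadraticAlgebra K a b} {i : Option K × K} (hi : i ≠ (some 0, 1))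
    {x : QuadraticAlgebra K a b} (hx : x ≠ 0) :
    opp (FF α β i) (lm (uu a b i.1) 0) x ∈ Mem α β i := by
  obtain ⟨o, j⟩ := i
  by_cases ho : o = some 0
  · subst ho
    have hj1 : j ≠ 1 := fun h => hi (by rw [h])
    simp only [Mem, FF, if_true, hj1, if_false, uu_some_zero]
    exact Or.inr ⟨x, hx, rfl⟩
  · by_cases hij : (o, j) = ((none, 0) : Option K × K)
    · obtain ⟨rfl, rfl⟩ := Prod.mk.injEq .. ▸ hij
      simp only [Mem, FF, ho, if_false, if_true, uu_none_eq, ee_zero]
      exact Or.inr ⟨x, hx, rfl⟩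
    · simp only [Mem, FF, ho, if_false, hij]
      exact Or.inr ⟨x, hx, rfl⟩

theorem mem_vert_of {α β : QuadraticAlgebra K a b} : vert K _ ∈ Mem α β (some 0, 1) := by
  simp only [Mem, if_true]
  exact Or.inr rfl

variable [hn : Fact (∀ r : K, r ^ 2 ≠ a + b * r)]

theorem isSpread_mem {α β : QuadraticAlgebra K a b} (hg : Good α β) (i : Option K × K) :
    IsSpread K (QuadraticAlgebra K a b × QuadraticAlgebra K a b) (Mem α β i) := by
  rw [Mem]
  split_ifs
  · exact isSpread_des finrank_L ind_one_omega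
  · exact isSpread_hall finrank_L ind_one_omega
  · exact isSpread_hall finrank_L ind_omega_one
  · exact isSpread_hall finrank_L (ind_u α β _ hg (uu_ne_zero _))

theorem pg_unique {α β : QuadraticAlgebra K a b} (hβ : β ≠ 0) {i i' : Option K × K}
    {c d : QuadraticAlgebra K a b} (h : PG α β i c d) (h' : PG α β i' c d) : i = i' := by
  have hne : ∀ (ν : K) (o : Option K), ν ≠ 0 → ν • (β * star (uu a b o)) ≠ 0 := by
    intro ν o hν h0
    rcases smul_eq_zero.mp h0 with h1 | h1
    · exact hν h1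
    · rcases mul_eq_zero.mp h1 with h2 | h2
      · exact hβ h2
      · exact uu_ne_zero o (by simpa using h2)
  rcases h with ⟨h1, h2⟩ | ⟨h1, ν, hν, h2, h3, h4⟩
  · rcases h' with ⟨h1', h2'⟩ | ⟨h1', ν', hν', h2', h3', h4'⟩
    · rw [h1, h1']
    · rw [h2] at h2'
      exact absurd h2'.symm (hne _ _ hν')
  · rcases h' with ⟨h1', h2'⟩ | ⟨h1', ν', hν', h2', h3', h4'⟩
    · rw [h2'] at h2
      exact absurd h2.symm (hne _ _ hν)
    · rw [h2, ← mul_smul_comm, ← mul_smul_comm, ← star_smul', ← star_smul'] at h2'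
      have h5 := star_injective (mul_left_cancel₀ hβ h2')
      have h6 : uu a b i'.1 = (ν / ν') • uu a b i.1 := by
        rw [div_eq_inv_mul, mul_smul, h5, smul_smul, inv_mul_cancel₀ hν', one_smul]
      obtain ⟨h7, h8⟩ := idx_inj h6
      have h9 : ν = ν' := by
        rw [div_eq_one_iff_eq hν'] at h8
        exact h8
      subst h9
      obtain ⟨o, j⟩ := i
      obtain ⟨o', j'⟩ := i'
      simp only at h7
      subst h7
      by_cases ho : o' = some 0
      · have e1 := h3 ho
        have e2 := h3' ho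
        simp only at e1 e2
        rw [← e1, ← e2]
      · obtain ⟨l, hl⟩ := h4 ho
        obtain ⟨l', hl'⟩ := h4' ho
        simp only at hl hl'
        rw [hl] at hl'
        have h10 : ee a b o' j' = ee a b o' j + (l - l') • uu a b o' := by
          rw [sub_smul]
          have := add_right_cancel hl'
          rw [add_sub, this]; abel
        rw [ee_inj h10]

theorem opp_unique {α β : QuadraticAlgebra K a b} (hg : Good α β) {i i' : Option K × K}
    {x x' : QuadraticAlgebra K a b} (hx : x ≠ 0) (hx' : x' ≠ 0)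
    (h : opp (FF α β i) (lm (uu a b i.1) 0) x = opp (FF α β i') (lm (uu a b i'.1) 0) x') :
    i = i' := by
  have hgx : ∀ (o : Option K) (y : QuadraticAlgebra K a b), lm (uu a b o) 0 y = uu a b o * y := by
    intro o y
    rw [lm_apply, zero_mul, add_zero]
  obtain ⟨k, l, hk, h1, h2⟩ := opp_eq hx hx' (by
    rw [hgx]; exact mul_ne_zero (uu_ne_zero _) hx') h
  rw [hgx, hgx, ← smul_mul_assoc] at h1
  obtain ⟨h3, h4⟩ := idx_inj (mul_right_cancel₀ hx h1)
  obtain ⟨o, j⟩ := i
  obtain ⟨o', j'⟩ := i'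
  simp only at h3
  subst h3
  rw [hgx] at h2
  by_cases ho : o' = some 0
  · subst ho
    simp only [FF, if_true, lm_apply, uu_some_zero, one_mul] at h2
    by_contra hne
    have hjj : j' - j ≠ 0 := by
      intro h
      apply hne
      rw [sub_eq_zero] at h
      rw [h]
    apply hg x hx (l / (j' - j))
    have h5 : (j' - j) • (α * x + β * star x) = l • x := by
      rw [sub_smul, smul_add, smul_add, ← smul_mul_assoc, ← smul_mul_assoc, ← smul_mul_assoc,
        ← smul_mul_assoc, h2]
      abel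
    rw [div_eq_inv_mul, mul_smul, ← h5, smul_smul, inv_mul_cancel₀ hjj, one_smul]
  · simp only [FF, ho, if_false, lm_apply, zero_mul, add_zero] at h2
    have h5 : ee a b o' j' = ee a b o' j + l • uu a b o' := by
      apply mul_right_cancel₀ hx
      rw [h2, add_mul, smul_mul_assoc]
    rw [ee_inj h5]

theorem mem_unique {α β : QuadraticAlgebra K a b} (hs : Sep a b) (hg : Good α β) (hβ : β ≠ 0)
    {i i' : Option K × K} (hi : i ≠ (some 0, 0)) (hi' : i' ≠ (some 0, 0))
    {m : Submodule K (QuadraticAlgebra K a b × QuadraticAlgebra K a b)}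
    (hm : m ∈ Mem α β i) (hm' : m ∈ Mem α β i') : i = i' := by
  have hgx : ∀ (o : Option K) (y : QuadraticAlgebra K a b), y ≠ 0 →
      lm (uu a b o) 0 y ≠ 0 := by
    intro o y hy
    rw [lm_apply, zero_mul, add_zero]
    exact mul_ne_zero (uu_ne_zero _) hy
  rcases mem_cases hi hm with ⟨c, d, rfl, h1⟩ | ⟨x, hx, rfl⟩ | ⟨rfl, h1⟩
  · rcases mem_cases hi' hm' with ⟨c', d', h2, h3⟩ | ⟨x', hx', h2⟩ | ⟨h2, h3⟩
    · obtain ⟨rfl, rfl⟩ := lm_inj hs (gr_injective h2)
      exact pg_unique hβ h1 h3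
    · exact absurd h2 (gr_ne_opp (hgx _ _ hx'))
    · exact absurd h2.symm (vert_ne_gr finrank_L)
  · rcases mem_cases hi' hm' with ⟨c', d', h2, h3⟩ | ⟨x', hx', h2⟩ | ⟨h2, h3⟩
    · exact absurd h2.symm (gr_ne_opp (hgx _ _ hx))
    · exact opp_unique hg hx hx' h2
    · exact absurd h2.symm (vert_ne_opp hx)
  · rcases mem_cases hi' hm' with ⟨c', d', h2, h3⟩ | ⟨x', hx', h2⟩ | ⟨h2, h3⟩
    · exact absurd h2 (vert_ne_gr finrank_L)
    · exact absurd h2 (vert_ne_opp hx')
    · rw [h1, h3]

/-- The partial packing. -/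
def PP (α β : QuadraticAlgebra K a b) :
    Set (Set (Submodule K (QuadraticAlgebra K a b × QuadraticAlgebra K a b))) :=
  Mem α β '' {i | i ≠ (some 0, 0)}

theorem spread_nonempty {V : Type*} [AddCommGroup V] [Module K V] [Nontrivial V]
    {S : Set (Submodule K V)} (hS : IsSpread K V S) : S.Nonempty := by
  obtain ⟨v, hv⟩ := exists_ne (0 : V)
  obtain ⟨m, hm, -⟩ := hS.2 v hv
  exact ⟨m, hm.1⟩

theorem PP_isComplete [Finite K] {α β : QuadraticAlgebra K a b} (hs : Sep a b) (hg : Good α β)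
    (hβ : β ≠ 0)
    (hno : ∀ F : Set (Submodule K (QuadraticAlgebra K a b × QuadraticAlgebra K a b)),
      IsSpread K (QuadraticAlgebra K a b × QuadraticAlgebra K a b) F →
      (∀ i, i ≠ (some 0, 0) → Disjoint F (Mem α β i)) → False) :
    IsCompletePartialPacking K (QuadraticAlgebra K a b × QuadraticAlgebra K a b) (PP α β) 2 := by
  have hfin : Finite (Option K × K) := inferInstance
  have hBB : ∀ i j, i ≠ (some 0, 0) → j ≠ (some 0, 0) → i ≠ j →
      Disjoint (Mem α β i) (Mem α β j) := by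
    intro i j hi hj hij
    rw [Set.disjoint_left]
    intro m hm hm'
    exact hij (mem_unique hs hg hβ hi hj hm hm')
  have hBinj : Set.InjOn (Mem α β) {i | i ≠ (some 0, 0)} := by
    intro i hi j hj hij
    by_contra hne
    have h3 := hBB i j hi hj hne
    rw [hij, disjoint_self] at h3
    exact (spread_nonempty (isSpread_mem hg j)).ne_empty h3
  refine ⟨?_, ?_, ?_, ?_⟩
  · rintro S ⟨i, -, rfl⟩
    exact isSpread_mem hg i
  · rintro S ⟨i, hi, rfl⟩ T ⟨j, hj, rfl⟩ hne
    exact hBB i j hi hj (fun h => hne (by rw [h]))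
  · rw [PP, hBinj.ncard_image]
    have hset : {i : Option K × K | i ≠ (some 0, 0)} = Set.univ \ {(some 0, 0)} := by
      ext i; simp
    rw [hset, Set.ncard_sdiff (Set.subset_univ _), Set.ncard_univ, Set.ncard_singleton,
      Nat.card_prod]
    have hopt : Nat.card (Option K) = Nat.card K + 1 := Finite.card_option
    rw [hopt]
    have hpos : 1 < Nat.card K := Finite.one_lt_card
    have h5 : (Nat.card K + 1) * Nat.card K = Nat.card K ^ 2 + Nat.card K := by ring
    rw [h5]
    have h6 : 0 < Nat.card K ^ 2 := by positivity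
    omega
  · rintro ⟨F, hF, hd⟩
    exact hno F hF fun i hi => hd _ ⟨i, hi, rfl⟩

end Pool.Agent.KS6_17.PG3
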